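import Mathlib

set_option autoImplicit false

/-!
# Project GM, job ALG: pure algebra
-/

namespace Pool.Agent.V5helper61.GM

open Subgroup

section maschke

variable {V : Type} [CommGroup V]

/-- complements in vector spaces, with explicit projections -/
lemma exists_lin_proj {K W : Type} [Field K] [AddCommGroup W] [Module K W] (N : Submodule K W) :
    ∃ g : W →ₗ[K] W, (∀ v, g v ∈ N) ∧ ∀ v ∈ N, g v = v := by
  obtain ⟨g, hg⟩ := LinearMap.exists_leftInverse_of_injective N.subtype (Submodule.ker_subtype N)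
  refine ⟨N.subtype.comp g, fun v => (g v).2, fun v hv => ?_⟩
  have h1 := LinearMap.congr_fun hg (⟨v, hv⟩ : N)
  have h2 : g v = (⟨v, hv⟩ : N) := h1
  show ((g v : N) : W) = v
  rw [h2]

/-- projections onto subgroups of elementary abelian groups -/
lemma exists_proj {p : ℕ} [Fact p.Prime] (hV : ∀ v : V, v ^ p = 1) (N : Subgroup V) :
    ∃ π : V →* V, (∀ v, π v ∈ N) ∧ ∀ v ∈ N, π v = v := by
  let _ : Module (ZMod p) (Additive V) := AddCommGroup.zmodModule (n := p) (fun x => by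
    have := hV x.toMul
    exact this)
  obtain ⟨g, hg1, hg2⟩ := exists_lin_proj (K := ZMod p) (W := Additive V)
    (AddSubgroup.toZModSubmodule p (Subgroup.toAddSubgroup N))
  exact ⟨MonoidHom.toAdditive.symm g.toAddMonoidHom, fun v => hg1 (Additive.ofMul v),
    fun v hv => hg2 (Additive.ofMul v) hv⟩

/-- Maschke's theorem for groups of automorphisms -/
lemma maschke {p : ℕ} [Fact p.Prime] (hV : ∀ v : V, v ^ p = 1) (G : Subgroup (MulAut V)) [Finite G]
    (hG : ¬ p ∣ Nat.card G) (N : Subgroup V) (hN : ∀ g ∈ G, ∀ v ∈ N, g v ∈ N) :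
    ∃ N' : Subgroup V, (∀ g ∈ G, ∀ v ∈ N', g v ∈ N') ∧ N ⊓ N' = ⊥ ∧ N ⊔ N' = ⊤ := by
  obtain ⟨π₀, h1, h2⟩ := exists_proj hV N
  have _ := Fintype.ofFinite G
  have hp := (Fact.out : p.Prime)
  have hcop : Nat.Coprime (Nat.card G) p := by
    rw [Nat.coprime_comm]
    exact (Nat.Prime.coprime_iff_not_dvd hp).2 hG
  obtain ⟨m, hm⟩ : ∃ m : ℕ, ∀ v : V, v ^ (Nat.card G * m) = v := by
    obtain ⟨m, hm⟩ := Nat.exists_mul_mod_eq_one_of_coprime hcop hp.one_lt
    refine ⟨m, fun v => ?_⟩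
    rw [← Nat.div_add_mod (Nat.card G * m) p, hm.2, pow_add, pow_mul, hV, one_pow, one_mul, pow_one]
  let ψ : G → V →* V := fun g => (((g : MulAut V)).toMonoidHom.comp π₀).comp
    ((g⁻¹ : G) : MulAut V).toMonoidHom
  let π : V →* V := (∏ g : G, ψ g) ^ m
  have hψ : ∀ g v, ψ g v = (g : MulAut V) (π₀ (((g⁻¹ : G) : MulAut V) v)) := fun g v => rfl
  have hπ : ∀ v, π v = (∏ g : G, (g : MulAut V) (π₀ (((g⁻¹ : G) : MulAut V) v))) ^ m := by
    intro v
    show ((∏ g : G, ψ g) ^ m) v = _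
    rw [MonoidHom.pow_apply, MonoidHom.finsetProd_apply]
    simp only [hψ]
  have h3 : ∀ v, π v ∈ N := by
    intro v
    rw [hπ]
    exact N.pow_mem (Subgroup.prod_mem _ fun (g : G) _ => hN g g.property _ (h1 _)) _
  have h4 : ∀ v ∈ N, π v = v := by
    intro v hv
    rw [hπ]
    have h5 : ∀ g : G, (g : MulAut V) (π₀ (((g⁻¹ : G) : MulAut V) v)) = v := by
      intro g
      rw [h2 _ (hN _ (g⁻¹ : G).property v hv), ← MulAut.mul_apply, ← Subgroup.coe_mul, mul_inv_cancel]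
      rfl
    rw [Finset.prod_congr rfl fun g _ => h5 g, Finset.prod_const, Finset.card_univ, ← pow_mul,
      ← Nat.card_eq_fintype_card, hm]
  have h5 : ∀ k ∈ G, ∀ v, π (k v) = k (π v) := by
    intro k hk v
    rw [hπ, hπ, map_pow, map_prod]
    congr 1
    refine (Fintype.prod_equiv (Equiv.mulLeft (⟨k, hk⟩ : G)) _ _ fun g => ?_).symm
    have e1 : (((Equiv.mulLeft (⟨k, hk⟩ : G)) g : G) : MulAut V) = k * (g : MulAut V) := rfl
    have e2 : ((((Equiv.mulLeft (⟨k, hk⟩ : G)) g : G)⁻¹ : G) : MulAut V)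
        = ((g⁻¹ : G) : MulAut V) * k⁻¹ := by
      simp [mul_inv_rev]
    rw [e1, e2, MulAut.mul_apply, MulAut.mul_apply]
    congr 3
    rw [MulAut.inv_apply_self]
  refine ⟨π.ker, fun g hg v hv => ?_, ?_, ?_⟩
  · rw [MonoidHom.mem_ker] at hv ⊢
    rw [h5 g hg, hv, map_one]
  · rw [eq_bot_iff]
    rintro v ⟨hv1, hv2⟩
    have hv2' : π v = 1 := hv2
    rw [h4 v hv1] at hv2'
    exact hv2'
  · rw [eq_top_iff]
    intro v _
    have e : v = π v * (v * (π v)⁻¹) := by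
      rw [mul_comm v, mul_inv_cancel_left]
    rw [e]
    refine Subgroup.mul_mem_sup (h3 v) ?_
    rw [MonoidHom.mem_ker, map_mul, map_inv, h4 _ (h3 v), mul_inv_cancel]

end maschke

section main

variable {V : Type} [CommGroup V]

/-- the iterates of an endomorphism -/
def itm (φ : V →* V) (i : ℕ) : V →* V where
  toFun := φ^[i]
  map_one' := iterate_map_one φ i
  map_mul' := iterate_map_mul φ i

lemma itm_apply (φ : V →* V) (i : ℕ) (v : V) : itm φ i v = φ^[i] v := rfl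

lemma it_stable {φ : V →* V} {U : Subgroup V} (hU : ∀ v ∈ U, φ v ∈ U) (k : ℕ) :
    ∀ v ∈ U, φ^[k] v ∈ U := by
  induction k with
  | zero => exact fun v hv => hv
  | succ k ih =>
    intro v hv
    rw [Function.iterate_succ_apply]
    exact ih _ (hU v hv)

lemma it_comm {φ : V →* V} {δ : MulAut V} (h : ∀ v, δ (φ v) = φ (δ v)) (k : ℕ) :
    ∀ v, δ (φ^[k] v) = φ^[k] (δ v) := by
  induction k with
  | zero => exact fun v => rfl
  | succ k ih =>
    intro v
    rw [Function.iterate_succ_apply, Function.iterate_succ_apply, ih, h]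

/-- the layer is not trivial -/
lemma layer_ne {φ : V →* V} {N : ℕ} (hN : ∀ v, φ^[N] v = 1) {U : Subgroup V}
    (hU : ∀ v ∈ U, φ v ∈ U) {q : ℕ} (hq : 0 < q) (hv : ∃ v, φ^[q - 1] v ∉ U) :
    ¬ (itm φ (q - 1)).range ≤ U ⊔ (itm φ q).range := by
  intro hle
  obtain ⟨v, hv⟩ := hv
  have key : ∀ k : ℕ, (itm φ (q - 1)).range ≤ U ⊔ (itm φ (q - 1 + k)).range := by
    intro k
    induction k with
    | zero => exact le_sup_right
    | succ k ih =>
      refine ih.trans (sup_le le_sup_left ?_)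
      rintro _ ⟨x, rfl⟩
      have h1 : φ^[q - 1] x ∈ U ⊔ (itm φ q).range := hle ⟨x, rfl⟩
      obtain ⟨u, hu, _, ⟨y, rfl⟩, h2⟩ := Subgroup.mem_sup.1 h1
      rw [itm_apply, Nat.add_comm (q - 1) k, Function.iterate_add_apply, ← h2, iterate_map_mul]
      refine Subgroup.mul_mem_sup (it_stable hU k u hu) ⟨y, ?_⟩
      rw [itm_apply, itm_apply, ← Function.iterate_add_apply,
        show q - 1 + (k + 1) = k + q by omega]
  have h1 : φ^[q - 1] v ∈ U ⊔ (itm φ (q - 1 + N)).range := key N ⟨v, rfl⟩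
  obtain ⟨u, hu, _, ⟨y, rfl⟩, h2⟩ := Subgroup.mem_sup.1 h1
  rw [itm_apply, Function.iterate_add_apply, hN, iterate_map_one, mul_one] at h2
  exact hv (h2 ▸ hu)

/-- the subgroups of the chain -/
def chn (φ : V →* V) (C : Subgroup V) (q j : ℕ) : Subgroup V where
  carrier := {v | ∀ i < q, q ≤ i + j → φ^[i] v ∈ C}
  one_mem' := fun i _ _ => by
    rw [iterate_map_one]
    exact C.one_mem
  mul_mem' := fun {a b} ha hb i h1 h2 => by
    rw [iterate_map_mul]
    exact C.mul_mem (ha i h1 h2) (hb i h1 h2)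
  inv_mem' := fun {a} ha i h1 h2 => by
    rw [iterate_map_inv]
    exact C.inv_mem (ha i h1 h2)

lemma mem_chn {φ : V →* V} {C : Subgroup V} {q j : ℕ} {v : V} :
    v ∈ chn φ C q j ↔ ∀ i < q, q ≤ i + j → φ^[i] v ∈ C := Iff.rfl

lemma index_chn {φ : V →* V} {C : Subgroup V} {q : ℕ} (hC : ∀ v, φ^[q] v ∈ C)
    (hC2 : C ⊔ (itm φ (q - 1)).range = ⊤) (j : ℕ) (hj : j ≤ q) :
    (chn φ C q j).index = C.index ^ j := by
  induction j with
  | zero =>
    have : chn φ C q 0 = ⊤ := by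
      rw [eq_top_iff]
      intro v _ i h1 h2
      omega
    rw [this, index_top, pow_zero]
  | succ j ih =>
    have e1 : chn φ C q (j + 1) = chn φ C q j ⊓ C.comap (itm φ (q - 1 - j)) := by
      ext v
      constructor
      · intro h
        refine ⟨fun i h1 h2 => h i h1 (by omega), ?_⟩
        exact h (q - 1 - j) (by omega) (by omega)
      · rintro ⟨h1, h2⟩ i h3 h4
        by_cases h5 : q ≤ i + j
        · exact h1 i h3 h5
        · have : i = q - 1 - j := by omega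
          subst this
          exact h2
    have e2 : (itm φ (q - 1)).range ≤ (chn φ C q j).map (itm φ (q - 1 - j)) := by
      rintro _ ⟨v, rfl⟩
      refine ⟨φ^[j] v, fun i h1 h2 => ?_, ?_⟩
      · rw [← Function.iterate_add_apply]
        have : i + j = q + (i + j - q) := by omega
        rw [this, Function.iterate_add_apply]
        exact hC _
      · rw [itm_apply, itm_apply, ← Function.iterate_add_apply]
        congr 2
        omega
    have e3 : C ⊔ (chn φ C q j).map (itm φ (q - 1 - j)) = ⊤ := by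
      rw [eq_top_iff, ← hC2]
      exact sup_le_sup_left e2 C
    have e4 : (chn φ C q (j + 1)).relIndex (chn φ C q j) = C.index := by
      rw [e1, inf_relIndex_left, relIndex_comap, ← relIndex_sup_left _ C, e3, relIndex_top_right]
    have e5 : chn φ C q (j + 1) ≤ chn φ C q j := by
      rw [e1]
      exact inf_le_left
    rw [← relIndex_mul_index e5, e4, ih (by omega), pow_succ, mul_comm]

variable (HH : Subgroup (MulAut V)) [Fintype HH]

/-- the action of the group ring on an element -/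
def ev (v : V) : Multiplicative (HH → ℤ) →* V where
  toFun := fun a => ∏ h : HH, ((h : MulAut V) v) ^ (Multiplicative.toAdd a h)
  map_one' := by simp
  map_mul' := fun a b => by
    simp only [toAdd_mul, Pi.add_apply, zpow_add, Finset.prod_mul_distrib]

lemma ev_apply (v : V) (a : Multiplicative (HH → ℤ)) :
    ev HH v a = ∏ h : HH, ((h : MulAut V) v) ^ (Multiplicative.toAdd a h) := rfl

lemma ev_mul (v w : V) (a : Multiplicative (HH → ℤ)) :
    ev HH (v * w) a = ev HH v a * ev HH w a := by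
  simp only [ev_apply, map_mul, mul_zpow, Finset.prod_mul_distrib]

lemma ev_mem {X : Subgroup V} (hX : ∀ h ∈ HH, ∀ v ∈ X, h v ∈ X) {v : V} (hv : v ∈ X)
    (a : Multiplicative (HH → ℤ)) : ev HH v a ∈ X := by
  rw [ev_apply]
  exact Subgroup.prod_mem _ fun (h : HH) _ => X.zpow_mem (hX h h.property v hv) _

lemma mem_ev (v : V) {h : MulAut V} (hh : h ∈ HH) : h v ∈ (ev HH v).range := by
  classical
  refine ⟨Multiplicative.ofAdd (Pi.single ⟨h, hh⟩ 1), ?_⟩
  rw [ev_apply, Finset.prod_eq_single (⟨h, hh⟩ : HH)]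
  · simp
  · intro k _ hk
    rw [toAdd_ofAdd, Pi.single_eq_of_ne hk, zpow_zero]
  · intro h
    exact absurd (Finset.mem_univ _) h

lemma mem_ev_self (v : V) : v ∈ (ev HH v).range := mem_ev HH v HH.one_mem

/-- an equivariance property -/
lemma ev_map_mem {X : Subgroup V} (v : V) (δ : MulAut V) (h : ∀ h ∈ HH, δ (h v) ∈ X) :
    ∀ w ∈ (ev HH v).range, δ w ∈ X := by
  rintro _ ⟨a, rfl⟩
  rw [ev_apply, map_prod]
  refine Subgroup.prod_mem _ fun (k : HH) _ => ?_
  rw [map_zpow]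
  exact X.zpow_mem (h k k.property) _

lemma ev_stable (v : V) : ∀ h ∈ HH, ∀ w ∈ (ev HH v).range, h w ∈ (ev HH v).range := by
  intro h hh
  refine ev_map_mem HH v h fun k hk => ?_
  rw [← MulAut.mul_apply]
  exact mem_ev HH v (HH.mul_mem hh hk)

lemma ev_comm (hcom : ∀ h ∈ HH, ∀ h' ∈ HH, h * h' = h' * h) (v : V)
    (a b : Multiplicative (HH → ℤ)) : ev HH (ev HH v a) b = ev HH (ev HH v b) a := by
  have e : ∀ (x : V) (k h : HH), (k : MulAut V) ((h : MulAut V) x) = (h : MulAut V) ((k : MulAut V) x) := by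
    intro x k h
    rw [← MulAut.mul_apply, hcom k k.property h h.property, MulAut.mul_apply]
  simp only [ev_apply, map_prod, map_zpow, ← Finset.prod_zpow]
  rw [Finset.prod_comm]
  refine Finset.prod_congr rfl fun h _ => Finset.prod_congr rfl fun k _ => ?_
  rw [e v k h, ← zpow_mul, ← zpow_mul, mul_comm]

lemma ev_it {φ : V →* V} (hφ : ∀ h ∈ HH, ∀ v, h (φ v) = φ (h v)) (i : ℕ) (v : V)
    (a : Multiplicative (HH → ℤ)) : φ^[i] (ev HH v a) = ev HH (φ^[i] v) a := by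
  show itm φ i (ev HH v a) = _
  rw [ev_apply, map_prod]
  refine Finset.prod_congr rfl fun h _ => ?_
  rw [map_zpow, itm_apply, ← it_comm (hφ h h.property)]

variable {HH}

lemma rel_ne [Finite V] (A B : Subgroup V) : A.relIndex B ≠ 0 :=
  (A.subgroupOf B).index_ne_zero_of_finite

/-- the maximal orbit -/
lemma exists_max [Finite V] {p : ℕ} [Fact p.Prime] (hV : ∀ v : V, v ^ p = 1)
    (hp : ¬ p ∣ Nat.card HH) (hcom : ∀ h ∈ HH, ∀ h' ∈ HH, h * h' = h' * h)
    (C : Subgroup V) (hC : ∀ h ∈ HH, ∀ v ∈ C, h v ∈ C) :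
    ∃ s : V, ∀ a, ev HH s a ∈ C → ∀ t, ev HH t a ∈ C := by
  obtain ⟨s, hs⟩ := Finite.exists_max (fun s : V => C.relIndex (ev HH s).range)
  refine ⟨s, fun a ha t => ?_⟩
  have hY : ∀ h ∈ HH, ∀ v ∈ C ⊔ (ev HH s).range, h v ∈ C ⊔ (ev HH s).range := by
    intro h hh v hv
    obtain ⟨c, hc, o, ho, rfl⟩ := Subgroup.mem_sup.1 hv
    rw [map_mul]
    exact Subgroup.mul_mem_sup (hC h hh c hc) (ev_stable HH s h hh o ho)
  obtain ⟨N', hN1, hN2, hN3⟩ := maschke hV HH hp _ hY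
  have ht : t ∈ (C ⊔ (ev HH s).range) ⊔ N' := by
    rw [hN3]
    trivial
  obtain ⟨y, hy, t', ht', rfl⟩ := Subgroup.mem_sup.1 ht
  obtain ⟨c, hc, _, ⟨b, rfl⟩, rfl⟩ := Subgroup.mem_sup.1 hy
  -- the second candidate
  have h1 : ∀ a, ev HH (s * t') a ∈ C → ev HH s a ∈ C := by
    intro a h
    rw [ev_mul] at h
    have h2 : ev HH t' a ∈ N' := ev_mem HH hN1 ht' a
    have h3 : ev HH t' a ∈ C ⊔ (ev HH s).range := by
      have h4 : ev HH s a ∈ C ⊔ (ev HH s).range := Subgroup.mem_sup_right ⟨a, rfl⟩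
      have h5 := (C ⊔ (ev HH s).range).mul_mem (Subgroup.inv_mem _ h4) (Subgroup.mem_sup_left h)
      rwa [inv_mul_cancel_left] at h5
    have h6 : ev HH t' a ∈ (C ⊔ (ev HH s).range) ⊓ N' := ⟨h3, h2⟩
    rw [hN2, Subgroup.mem_bot] at h6
    rwa [h6, mul_one] at h
  have hle : C.comap (ev HH (s * t')) ≤ C.comap (ev HH s) := h1
  have hi : (C.comap (ev HH (s * t'))).relIndex (C.comap (ev HH s)) = 1 := by
    have e1 := relIndex_mul_index hle
    have e2 : (C.comap (ev HH (s * t'))).index ≤ (C.comap (ev HH s)).index := by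
      rw [index_comap, index_comap]
      exact hs (s * t')
    have e3 : 0 < (C.comap (ev HH s)).index := by
      rw [index_comap]
      exact Nat.pos_of_ne_zero (rel_ne _ _)
    have e4 : 0 < (C.comap (ev HH (s * t'))).index := by
      rw [index_comap]
      exact Nat.pos_of_ne_zero (rel_ne _ _)
    rw [← e1] at e2 e4
    have e5 := Nat.pos_of_mul_pos_right e4
    nlinarith
  rw [relIndex_eq_one] at hi
  have h2 : ev HH (s * t') a ∈ C := hi ha
  rw [ev_mul] at h2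
  have h3 : ev HH t' a ∈ C := by
    have := C.mul_mem (C.inv_mem ha) h2
    rwa [inv_mul_cancel_left] at this
  rw [ev_mul, ev_mul]
  refine C.mul_mem (C.mul_mem (ev_mem HH hC hc a) ?_) h3
  rw [ev_comm HH hcom]
  exact ev_mem HH hC ha b

/-- the choice of the subgroup `C` -/
lemma exists_C [Finite V] {p : ℕ} [Fact p.Prime] (hV : ∀ v : V, v ^ p = 1)
    {DD : Subgroup (MulAut V)} (hp : ¬ p ∣ Nat.card DD) {φ : V →* V}
    (hφ : ∀ δ ∈ DD, ∀ v, δ (φ v) = φ (δ v)) {N : ℕ} (hN : ∀ v, φ^[N] v = 1)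
    {U : Subgroup V} (hUD : ∀ δ ∈ DD, ∀ v ∈ U, δ v ∈ U) (hU : ∀ v ∈ U, φ v ∈ U)
    {q : ℕ} (hq : 0 < q) {w0 : ℕ}
    (hw : ∀ B' B : Subgroup V, U ≤ B' → B' ≤ B → (∀ δ ∈ DD, ∀ v ∈ B', δ v ∈ B') →
      (∀ δ ∈ DD, ∀ v ∈ B, δ v ∈ B) → (∀ v ∈ B, φ v ∈ B') → B' ≠ B → w0 ≤ B'.relIndex B)
    (hv : ∃ v, φ^[q - 1] v ∉ U) :
    ∃ C : Subgroup V, U ≤ C ∧ (∀ v, φ^[q] v ∈ C) ∧ (∀ δ ∈ DD, ∀ v ∈ C, δ v ∈ C) ∧
      C ⊔ (itm φ (q - 1)).range = ⊤ ∧ w0 ≤ C.index := by
  have _ : Finite DD := inferInstance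
  have hst : ∀ i, ∀ δ ∈ DD, ∀ v ∈ U ⊔ (itm φ i).range, δ v ∈ U ⊔ (itm φ i).range := by
    intro i δ hδ v hv
    obtain ⟨u, hu, _, ⟨x, rfl⟩, rfl⟩ := Subgroup.mem_sup.1 hv
    rw [map_mul]
    refine Subgroup.mul_mem_sup (hUD δ hδ u hu) ⟨δ x, ?_⟩
    rw [itm_apply, itm_apply, it_comm (hφ δ hδ)]
  have hB1 : U ⊔ (itm φ q).range ≤ U ⊔ (itm φ (q - 1)).range := by
    refine sup_le le_sup_left (le_trans ?_ le_sup_right)
    rintro _ ⟨x, rfl⟩
    refine ⟨φ x, ?_⟩
    rw [itm_apply, itm_apply, ← Function.iterate_succ_apply]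
    congr 2
    omega
  have hne : U ⊔ (itm φ q).range ≠ U ⊔ (itm φ (q - 1)).range := by
    intro h
    refine layer_ne hN hU hq hv ?_
    rw [h]
    exact le_sup_right
  have hw1 := hw _ _ le_sup_left hB1 (hst q) (hst (q - 1)) (by
    intro v hv
    obtain ⟨u, hu, _, ⟨x, rfl⟩, rfl⟩ := Subgroup.mem_sup.1 hv
    rw [map_mul]
    refine Subgroup.mul_mem_sup (hU u hu) ⟨x, ?_⟩
    rw [itm_apply, itm_apply, ← Function.iterate_succ_apply' φ (q - 1)]
    congr 2
    omega) hne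
  obtain ⟨N', hN1, hN2, hN3⟩ := maschke hV DD hp _ (hst (q - 1))
  refine ⟨(U ⊔ (itm φ q).range) ⊔ N', le_sup_left.trans le_sup_left, fun v => ?_, ?_, ?_, ?_⟩
  · exact Subgroup.mem_sup_left (Subgroup.mem_sup_right ⟨v, rfl⟩)
  · intro δ hδ v hv
    obtain ⟨y, hy, n, hn, rfl⟩ := Subgroup.mem_sup.1 hv
    rw [map_mul]
    exact Subgroup.mul_mem_sup (hst q δ hδ y hy) (hN1 δ hδ n hn)
  · rw [eq_top_iff, ← hN3]
    refine sup_le (sup_le ?_ le_sup_right) (le_trans le_sup_right le_sup_left)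
    exact (le_sup_left.trans le_sup_left).trans le_sup_left
  · have e1 : ((U ⊔ (itm φ q).range) ⊔ N') ⊓ (U ⊔ (itm φ (q - 1)).range) = U ⊔ (itm φ q).range := by
      rw [sup_inf_assoc_of_le _ hB1, inf_comm, hN2, sup_bot_eq]
    have e2 : ((U ⊔ (itm φ q).range) ⊔ N') ⊔ (U ⊔ (itm φ (q - 1)).range) = ⊤ := by
      rw [eq_top_iff, ← hN3]
      exact sup_le le_sup_right (le_trans le_sup_right le_sup_left)
    rw [← relIndex_top_right, ← e2, relIndex_sup_left, ← inf_relIndex_right, e1]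
    exact hw1

end main

end Pool.Agent.V5helper61.GM
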