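import Pool.Agent.V5helper60.GM.Stm
import Pool.Agent.V5helper61.GM.AlgBase

/-!
# Project GM, job ALG
-/

set_option autoImplicit false

namespace Pool.Agent.V5helper61.GM

open Subgroup

theorem t_ALG : Pool.Agent.V5helper60.GM.S_ALG := by
  intro p _ V _ _ hV DD hp φ hφ N hN U hUD hU HH hHD hnorm hcom c hc hcov q hq w0 hw hv
  have _ : Finite DD := inferInstance
  have _ : Finite HH := inferInstance
  have _ := Fintype.ofFinite HH
  have hpH : ¬ p ∣ Nat.card HH := fun h => hp (h.trans (Subgroup.card_dvd_of_le hHD))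
  obtain ⟨C, hUC, hqC, hCD, htop, hw0⟩ := exists_C hV hp hφ hN hUD hU hq hw hv
  have hCH : ∀ h ∈ HH, ∀ v ∈ C, h v ∈ C := fun h hh => hCD h (hHD hh)
  obtain ⟨s, hs⟩ := exists_max hV hpH hcom C hCH
  have hPD : ∀ δ ∈ DD, ∀ v ∈ chn φ C q q, δ v ∈ chn φ C q q := by
    intro δ hδ v hv i h1 h2
    rw [← it_comm (hφ δ hδ)]
    exact hCD δ hδ _ (hv i h1 h2)
  refine ⟨chn φ C q q, C.index, ?_, hPD, ?_, ?_, hw0, index_chn hqC htop q le_rfl, ?_⟩
  · intro u hu i _ _
    exact hUC (it_stable hU i u hu)
  · intro v hv i h1 h2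
    rw [← Function.iterate_succ_apply]
    by_cases h3 : i + 1 < q
    · exact hv (i + 1) h3 (by omega)
    · have : i + 1 = q := by omega
      rw [Nat.succ_eq_add_one, this]
      exact hqC v
  · intro v i h1 h2
    rw [← Function.iterate_add_apply, add_comm, Function.iterate_add_apply]
    exact hqC _
  · intro b
    have key : ∀ v : V, (chn φ C q q).relIndex (ev HH v).range ≤ C.index := by
      intro v
      have h1 : C.comap (ev HH s) ≤ (chn φ C q q).comap (ev HH v) := by
        intro a ha i h2 h3
        rw [ev_it HH (fun h hh => hφ h (hHD hh))]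
        exact hs a ha _
      have h2 := Subgroup.index_dvd_of_le h1
      rw [index_comap, index_comap] at h2
      have h3 := Nat.le_of_dvd (Nat.pos_of_ne_zero (rel_ne _ _)) h2
      have h4 : C.relIndex (ev HH s).range ≤ C.index := by
        rw [← relIndex_top_right C]
        exact relIndex_le_of_le_right le_top (rel_ne _ _)
      exact h3.trans h4
    have hc2 : c * c ∈ HH := by
      rcases hcov (c * c) (DD.mul_mem hc hc) with h | h
      · exact h
      · rw [mul_inv_cancel_right] at h
        exact HH.mul_mem h h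
    refine ⟨chn φ C q q ⊔ (ev HH b).range ⊔ (ev HH (c b)).range, le_sup_left.trans le_sup_left, ?_, ?_, ?_⟩
    · have hSH : ∀ h ∈ HH, ∀ v ∈ chn φ C q q ⊔ (ev HH b).range ⊔ (ev HH (c b)).range,
          h v ∈ chn φ C q q ⊔ (ev HH b).range ⊔ (ev HH (c b)).range := by
        intro h hh v hv
        obtain ⟨y, hy, z, hz, rfl⟩ := Subgroup.mem_sup.1 hv
        obtain ⟨x, hx, y', hy', rfl⟩ := Subgroup.mem_sup.1 hy
        rw [map_mul, map_mul]
        exact Subgroup.mul_mem_sup (Subgroup.mul_mem_sup (hPD h (hHD hh) x hx)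
          (ev_stable HH b h hh y' hy')) (ev_stable HH (c b) h hh z hz)
      have hSc : ∀ v ∈ chn φ C q q ⊔ (ev HH b).range ⊔ (ev HH (c b)).range,
          c v ∈ chn φ C q q ⊔ (ev HH b).range ⊔ (ev HH (c b)).range := by
        intro v hv
        obtain ⟨y, hy, z, hz, rfl⟩ := Subgroup.mem_sup.1 hv
        obtain ⟨x, hx, y', hy', rfl⟩ := Subgroup.mem_sup.1 hy
        rw [map_mul, map_mul]
        refine Subgroup.mul_mem _ (Subgroup.mul_mem _ ?_ ?_) ?_
        · exact Subgroup.mem_sup_left (Subgroup.mem_sup_left (hPD c hc x hx))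
        · refine Subgroup.mem_sup_right (ev_map_mem HH b c (fun h hh => ?_) y' hy')
          have e : c (h b) = (c * h * c⁻¹) (c b) := by
            rw [MulAut.mul_apply, MulAut.mul_apply, MulAut.inv_apply_self]
          rw [e]
          exact mem_ev HH (c b) (hnorm c hc h hh)
        · refine Subgroup.mem_sup_left (Subgroup.mem_sup_right
            (ev_map_mem HH (c b) c (fun h hh => ?_) z hz))
          have e : c (h (c b)) = ((c * h * c⁻¹) * (c * c)) b := by
            simp only [MulAut.mul_apply, MulAut.inv_apply_self]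
          rw [e]
          exact mem_ev HH b (HH.mul_mem (hnorm c hc h hh) hc2)
      intro δ hδ v hv
      rcases hcov δ hδ with h | h
      · exact hSH δ h v hv
      · have e : δ v = (δ * c⁻¹) (c v) := by
          rw [MulAut.mul_apply, MulAut.inv_apply_self]
        rw [e]
        exact hSH _ h _ (hSc v hv)
    · exact Subgroup.mem_sup_left (Subgroup.mem_sup_right (mem_ev_self HH b))
    · rw [← relIndex_mul_relIndex _ (chn φ C q q ⊔ (ev HH b).range) _ le_sup_left le_sup_left,
        relIndex_sup_left, relIndex_sup_left, sq]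
      refine Nat.mul_le_mul (key b) ?_
      exact (relIndex_le_of_le_left le_sup_left (rel_ne _ _)).trans (key (c b))

end Pool.Agent.V5helper61.GM
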